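import Pool.Agent.P8H67.TD.Stm

/-! Project TD, part GLOC. -/

set_option autoImplicit false

open Set Filter Topology

namespace Pool.Agent.P8H66.TD

open Pool.Agent.N520.SV (Sx Chain face bdry)
open Pool.Agent.P8H67.TD

theorem preconn (k : ℕ) : PreconnectedSpace (Sx k) :=
  Subtype.preconnectedSpace (convex_stdSimplex ℝ (Fin (k + 1))).isPreconnected

theorem bdry_single {M : Type} [TopologicalSpace M] (k : ℕ) (σ : C(Sx (k + 1), M)) :
    bdry k (Finsupp.single σ 1) =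
      ∑ i : Fin (k + 2), ((-1 : ℝ) ^ (i : ℕ)) • Finsupp.single (σ.comp (face i)) 1 := by
  unfold bdry
  rw [Finsupp.linearCombination_single, one_smul]

section

variable {Y G : Type} [TopologicalSpace Y] [Group G] [MulAction G Y] [ContinuousConstSMul G Y]

theorem gs_apply {k : ℕ} (g : G) (σ : C(Sx k, Y)) (t : Sx k) : gs g σ t = g • σ t := rfl

theorem gs_mul {k : ℕ} (g h : G) (σ : C(Sx k, Y)) : gs (g * h) σ = gs g (gs h σ) := by
  ext t
  simp only [gs_apply, mul_smul]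

theorem CC_eq {Y : Type} [TopologicalSpace Y] {k : ℕ} (W : Set Y) :
    CC k W = Submodule.span ℝ ((fun σ : C(Sx k, Y) => Finsupp.single σ (1 : ℝ)) ''
      {σ | range σ ⊆ W}) := Finsupp.supported_eq_span_single ℝ _

variable (F : Subgroup G) {B W : Set Y}

theorem exists_g (h1 : ∀ g ∉ F, ∀ y ∈ B, g • y ∉ B) (hW : IsOpen W) (hWB : W ⊆ B)
    (h2 : ∀ g ∈ F, ∀ y ∈ W, g • y ∈ W) {k : ℕ} (σ : C(Sx k, Y)) (hσ : range σ ⊆ orb G W) :
    ∃ g : G, range (gs g σ) ⊆ W := by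
  haveI := preconn k
  have t0 : Sx k := vtx 0
  obtain ⟨g0, hg0⟩ := hσ ⟨t0, rfl⟩
  have hop : ∀ g : G, IsOpen {t | g • σ t ∈ W} := fun g =>
    hW.preimage ((continuous_const_smul g).comp σ.continuous)
  have hcl : IsClopen {t | g0 • σ t ∈ W} := by
    refine ⟨⟨?_⟩, hop g0⟩
    have : {t | g0 • σ t ∈ W}ᶜ = ⋃ h : {h : G // h * g0⁻¹ ∉ F}, {t | (h : G) • σ t ∈ W} := by
      ext t
      simp only [mem_compl_iff, mem_setOf_eq, mem_iUnion]
      constructor
      · intro ht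
        obtain ⟨h, hh⟩ := hσ ⟨t, rfl⟩
        refine ⟨⟨h, fun hF => ht ?_⟩, hh⟩
        have h3 := h2 _ (F.inv_mem hF) _ hh
        rwa [← mul_smul, mul_inv_rev, inv_inv, inv_mul_cancel_right] at h3
      · rintro ⟨⟨h, hF⟩, hh⟩ ht
        apply h1 _ hF _ (hWB ht)
        rw [← mul_smul, inv_mul_cancel_right]
        exact hWB hh
    rw [this]
    exact isOpen_iUnion (fun h => hop h)
  have huniv := hcl.eq_univ ⟨t0, hg0⟩
  refine ⟨g0, ?_⟩
  rintro _ ⟨t, rfl⟩
  have : t ∈ {t | g0 • σ t ∈ W} := by rw [huniv]; exact mem_univ _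
  exact this

theorem uniq_g (h1 : ∀ g ∉ F, ∀ y ∈ B, g • y ∉ B) (hWB : W ⊆ B) {k : ℕ} (σ : C(Sx k, Y))
    {g g' : G} (hg : range (gs g σ) ⊆ W) (hg' : range (gs g' σ) ⊆ W) : g' * g⁻¹ ∈ F := by
  by_contra hF
  have t0 : Sx k := vtx 0
  apply h1 _ hF _ (hWB (hg ⟨t0, rfl⟩))
  rw [gs_apply, ← mul_smul, inv_mul_cancel_right]
  exact hWB (hg' ⟨t0, rfl⟩)

variable [Fintype F]

/-- the average over `F` -/
noncomputable def av {k : ℕ} (σ : C(Sx k, Y)) : Chain k Y :=
  ∑ f : F, ((Fintype.card F : ℝ)⁻¹) • Finsupp.single (gs (f : G) σ) 1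

theorem av_mul {k : ℕ} (σ : C(Sx k, Y)) {g : G} (hg : g ∈ F) : av F (gs g σ) = av F σ := by
  unfold av
  rw [← Equiv.sum_comp (Equiv.mulRight (⟨g, hg⟩ : F))
    (fun f : F => ((Fintype.card F : ℝ)⁻¹) • Finsupp.single (gs (f : G) σ) (1 : ℝ))]
  refine Finset.sum_congr rfl (fun f _ => ?_)
  rw [← gs_mul]
  rfl

theorem av_mem (h2 : ∀ g ∈ F, ∀ y ∈ W, g • y ∈ W) {k : ℕ} {σ : C(Sx k, Y)}
    (hσ : range σ ⊆ W) : av F σ ∈ CC k W := by
  unfold av
  refine Submodule.sum_mem _ (fun f _ => Submodule.smul_mem _ _ ?_)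
  apply Finsupp.single_mem_supported
  rintro _ ⟨t, rfl⟩
  exact h2 _ f.2 _ (hσ ⟨t, rfl⟩)

open Classical in
/-- the transfer of a simplex -/
noncomputable def tau (W : Set Y) {k : ℕ} (σ : C(Sx k, Y)) : Chain k Y :=
  if h : ∃ g : G, range (gs g σ) ⊆ W then av F (gs h.choose σ) else 0

theorem tau_eq (h1 : ∀ g ∉ F, ∀ y ∈ B, g • y ∉ B) (hWB : W ⊆ B) {k : ℕ} (σ : C(Sx k, Y))
    {g : G} (hg : range (gs g σ) ⊆ W) : tau F W σ = av F (gs g σ) := by
  have h : ∃ g : G, range (gs g σ) ⊆ W := ⟨g, hg⟩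
  unfold tau
  rw [dif_pos h]
  have h3 := uniq_g F h1 hWB σ hg h.choose_spec
  rw [← av_mul F (gs g σ) h3, ← gs_mul, inv_mul_cancel_right]

/-- the transfer -/
noncomputable def TT (W : Set Y) (k : ℕ) : Chain k Y →ₗ[ℝ] Chain k Y :=
  Finsupp.linearCombination ℝ (fun σ => tau F W σ)

theorem TT_single {k : ℕ} (σ : C(Sx k, Y)) : TT F W k (Finsupp.single σ 1) = tau F W σ := by
  unfold TT
  rw [Finsupp.linearCombination_single, one_smul]

theorem TT_mem (h2 : ∀ g ∈ F, ∀ y ∈ W, g • y ∈ W) {k : ℕ} (c : Chain k Y) :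
    TT F W k c ∈ CC k W := by
  unfold TT
  rw [Finsupp.linearCombination_apply]
  refine Submodule.sum_mem _ (fun σ _ => Submodule.smul_mem _ _ ?_)
  unfold tau
  split_ifs with h
  · exact av_mem F h2 h.choose_spec
  · exact Submodule.zero_mem _

theorem TT_KK (h1 : ∀ g ∉ F, ∀ y ∈ B, g • y ∉ B) (hW : IsOpen W) (hWB : W ⊆ B)
    (h2 : ∀ g ∈ F, ∀ y ∈ W, g • y ∈ W) {k : ℕ} {c : Chain k Y} (hc : c ∈ KK G k (orb G W)) :
    TT F W k c = 0 := by
  have : KK G k (orb G W) ≤ LinearMap.ker (TT F W k) := by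
    unfold KK
    rw [Submodule.span_le]
    rintro _ ⟨g, σ, hσ, rfl⟩
    obtain ⟨g1, hg1⟩ := exists_g F h1 hW hWB h2 σ hσ
    have h3 : range (gs (g1 * g⁻¹) (gs g σ)) ⊆ W := by
      rw [← gs_mul, inv_mul_cancel_right]
      exact hg1
    change TT F W k _ = 0
    rw [map_sub, TT_single, TT_single, tau_eq F h1 hWB σ hg1, tau_eq F h1 hWB _ h3, ← gs_mul,
      inv_mul_cancel_right, sub_self]
  exact this hc

theorem bdry_TT (h1 : ∀ g ∉ F, ∀ y ∈ B, g • y ∉ B) (hW : IsOpen W) (hWB : W ⊆ B)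
    (h2 : ∀ g ∈ F, ∀ y ∈ W, g • y ∈ W) {k : ℕ} {c : Chain (k + 1) Y}
    (hc : c ∈ CC (k + 1) (orb G W)) : bdry k (TT F W (k + 1) c) = TT F W k (bdry k c) := by
  have : CC (k + 1) (orb G W) ≤
      LinearMap.ker (bdry k ∘ₗ TT F W (k + 1) - TT F W k ∘ₗ bdry k) := by
    rw [CC_eq, Submodule.span_le]
    rintro _ ⟨σ, hσ, rfl⟩
    obtain ⟨g, hg⟩ := exists_g F h1 hW hWB h2 σ hσ
    change (bdry k ∘ₗ TT F W (k + 1) - TT F W k ∘ₗ bdry k) (Finsupp.single σ 1) = 0
    rw [LinearMap.sub_apply, LinearMap.comp_apply, LinearMap.comp_apply, TT_single,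
      tau_eq F h1 hWB σ hg, bdry_single, map_sum, sub_eq_zero]
    have h3 : ∀ i : Fin (k + 2), range (gs g (σ.comp (face i))) ⊆ W := by
      rintro i _ ⟨t, rfl⟩
      exact hg ⟨face i t, rfl⟩
    have h4 : ∀ i : Fin (k + 2), TT F W k (((-1 : ℝ) ^ (i : ℕ)) •
        Finsupp.single (σ.comp (face i)) 1) =
        ((-1 : ℝ) ^ (i : ℕ)) • av F (gs g (σ.comp (face i))) := by
      intro i
      rw [map_smul, TT_single, tau_eq F h1 hWB _ (h3 i)]
    rw [Finset.sum_congr rfl (fun i _ => h4 i)]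
    unfold av
    rw [map_sum]
    simp only [Finset.smul_sum, map_smul, bdry_single]
    rw [Finset.sum_comm]
    refine Finset.sum_congr rfl (fun i _ => Finset.sum_congr rfl (fun f _ => ?_))
    rw [smul_comm]
    rfl
  have h5 := this hc
  rw [LinearMap.mem_ker, LinearMap.sub_apply, sub_eq_zero] at h5
  exact h5

theorem sub_TT (h1 : ∀ g ∉ F, ∀ y ∈ B, g • y ∉ B) (hW : IsOpen W) (hWB : W ⊆ B)
    (h2 : ∀ g ∈ F, ∀ y ∈ W, g • y ∈ W) {k : ℕ} {c : Chain k Y}
    (hc : c ∈ CC k (orb G W)) : c - TT F W k c ∈ KK G k (orb G W) := by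
  have : CC k (orb G W) ≤ (KK G k (orb G W)).comap (LinearMap.id - TT F W k) := by
    rw [CC_eq, Submodule.span_le]
    rintro _ ⟨σ, hσ, rfl⟩
    obtain ⟨g, hg⟩ := exists_g F h1 hW hWB h2 σ hσ
    change Finsupp.single σ (1 : ℝ) - TT F W k (Finsupp.single σ 1) ∈ KK G k (orb G W)
    rw [TT_single, tau_eq F h1 hWB σ hg]
    have h3 : Finsupp.single σ (1 : ℝ) =
        ∑ _f : F, ((Fintype.card F : ℝ)⁻¹) • Finsupp.single σ (1 : ℝ) := by
      rw [Finset.sum_const, Finset.card_univ, ← Nat.cast_smul_eq_nsmul ℝ, smul_smul,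
        mul_inv_cancel₀ (by exact_mod_cast Fintype.card_ne_zero), one_smul]
    have h4 : Finsupp.single σ (1 : ℝ) - av F (gs g σ) = -∑ f : F, ((Fintype.card F : ℝ)⁻¹) •
        (Finsupp.single (gs ((f : G) * g) σ) (1 : ℝ) - Finsupp.single σ 1) := by
      conv_lhs => rw [h3]
      unfold av
      rw [← Finset.sum_sub_distrib, ← Finset.sum_neg_distrib]
      refine Finset.sum_congr rfl (fun f _ => ?_)
      rw [gs_mul, smul_sub, neg_sub]
    rw [h4]
    refine Submodule.neg_mem _ (Submodule.sum_mem _ (fun f _ => Submodule.smul_mem _ _ ?_))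
    exact Submodule.subset_span ⟨_, σ, hσ, rfl⟩
  exact this hc

end

section

variable {Y : Type} [TopologicalSpace Y]

/-- the inclusion -/
def inc (W : Set Y) : C(W, Y) := ⟨Subtype.val, continuous_subtype_val⟩

/-- the push forward of chains -/
noncomputable def push (W : Set Y) (k : ℕ) : Chain k W →ₗ[ℝ] Chain k Y :=
  Finsupp.lmapDomain ℝ ℝ (fun σ => (inc W).comp σ)

theorem push_single (W : Set Y) (k : ℕ) (σ : C(Sx k, W)) :
    push W k (Finsupp.single σ 1) = Finsupp.single ((inc W).comp σ) 1 := by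
  unfold push
  rw [Finsupp.lmapDomain_apply, Finsupp.mapDomain_single]

theorem push_inj (W : Set Y) (k : ℕ) : Function.Injective (push W k) := by
  apply Finsupp.mapDomain_injective
  intro σ τ h
  ext t
  exact congrArg (fun s : C(Sx k, Y) => s t) h

theorem push_bdry (W : Set Y) (k : ℕ) (c : Chain (k + 1) W) :
    bdry k (push W (k + 1) c) = push W k (bdry k c) := by
  have : bdry k ∘ₗ push W (k + 1) = push W k ∘ₗ bdry k := by
    apply Finsupp.lhom_ext'
    intro σ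
    apply LinearMap.ext_ring
    change bdry k (push W (k + 1) (Finsupp.single σ 1)) = push W k (bdry k (Finsupp.single σ 1))
    rw [push_single, bdry_single, bdry_single, map_sum]
    refine Finset.sum_congr rfl (fun i _ => ?_)
    rw [map_smul, push_single]
    rfl
  exact LinearMap.congr_fun this c

theorem push_mem (W : Set Y) (k : ℕ) (c : Chain k W) : push W k c ∈ CC k W := by
  induction c using Finsupp.induction_linear with
  | zero => rw [map_zero]; exact Submodule.zero_mem _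
  | add f g hf hg => rw [map_add]; exact Submodule.add_mem _ hf hg
  | single σ r =>
    have : Finsupp.single σ r = r • Finsupp.single σ (1 : ℝ) := by simp
    rw [this, map_smul, push_single]
    refine Submodule.smul_mem _ _ (Finsupp.single_mem_supported ℝ _ ?_)
    rintro _ ⟨t, rfl⟩
    exact (σ t).2

theorem mem_push {W : Set Y} {k : ℕ} {c : Chain k Y} (hc : c ∈ CC k W) :
    ∃ c', push W k c' = c := by
  have : CC k W ≤ LinearMap.range (push W k) := by
    rw [CC_eq W, Submodule.span_le]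
    rintro _ ⟨σ, hσ, rfl⟩
    refine ⟨Finsupp.single ⟨fun t => ⟨σ t, hσ ⟨t, rfl⟩⟩, by fun_prop⟩ 1, ?_⟩
    rw [push_single]
    rfl
  exact this hc

end

theorem gloc : S_GLOC := by
  intro Y G _ _ _ _ F _ B W h1 hW hWB h2 j hRA c hc hb
  haveI : Fintype F := Fintype.ofFinite F
  have k1 := TT_mem (W := W) F h2 c
  have k2 : bdry j (TT F W (j + 1) c) = 0 := by
    rw [bdry_TT F h1 hW hWB h2 hc, TT_KK F h1 hW hWB h2 hb]
  obtain ⟨c', hc'⟩ := mem_push k1
  have k3 : bdry j c' = 0 := by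
    apply push_inj W j
    rw [← push_bdry, hc', k2, map_zero]
  obtain ⟨w', hw'⟩ := hRA c' k3
  have hWo : W ⊆ orb G W := fun y hy => ⟨1, by rwa [one_smul]⟩
  refine ⟨push W (j + 2) w', ?_, ?_⟩
  · have hsub : {σ : C(Sx (j + 2), Y) | range σ ⊆ W} ⊆ {σ | range σ ⊆ orb G W} :=
      fun σ (hσ : range σ ⊆ W) => subset_trans hσ hWo
    exact Finsupp.supported_mono hsub (push_mem W (j + 2) w')
  · rw [push_bdry, hw', hc']
    exact sub_TT F h1 hW hWB h2 hc

end Pool.Agent.P8H66.TD
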